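import Mathlib

set_option autoImplicit false

namespace Pool.Agent.Results.MP_cfc379_co.No

/-- Real symmetric matrices whose off-diagonal pattern is the graph. -/
def Fits {n : ℕ} (G : SimpleGraph (Fin n)) (A : Matrix (Fin n) (Fin n) ℝ) : Prop :=
  A.IsSymm ∧ ∀ i j, i ≠ j → (A i j ≠ 0 ↔ G.Adj i j)

/-- Maximum nullity. -/
noncomputable def maxNull {n : ℕ} (G : SimpleGraph (Fin n)) : ℕ :=
  sSup {k | ∃ A, Fits G A ∧ Module.finrank ℝ (LinearMap.ker A.mulVecLin) = k}

/-- Vertices that become filled starting from `B` under the colour change rule. -/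
inductive Filled {n : ℕ} (G : SimpleGraph (Fin n)) (B : Finset (Fin n)) : Fin n → Prop
  | base (v : Fin n) : v ∈ B → Filled G B v
  | force (u w : Fin n) : Filled G B u → G.Adj u w →
      (∀ x, G.Adj u x → x ≠ w → Filled G B x) → Filled G B w

/-- Zero forcing number. -/
noncomputable def zfNum {n : ℕ} (G : SimpleGraph (Fin n)) : ℕ :=
  sInf {k | ∃ B : Finset (Fin n), B.card = k ∧ ∀ v, Filled G B v}

section Example

def edges : List (Fin 14 × Fin 14) :=
  [(0, 8), (0, 9), (0, 11), (1, 7), (1, 8), (1, 12), (2, 7), (2, 11), (2, 12), (3, 9), (3, 12),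
    (3, 13), (4, 9), (4, 10), (4, 11), (5, 7), (5, 10), (5, 13), (6, 9), (6, 11), (6, 12)]

def adjB (u v : Fin 14) : Bool := edges.contains (u, v) || edges.contains (v, u)

lemma adjB_symm : ∀ u v, adjB u v = true → adjB v u = true := by decide +kernel
lemma adjB_irr : ∀ u, adjB u u = false := by decide +kernel

def G0 : SimpleGraph (Fin 14) where
  Adj u v := adjB u v = true
  symm := ⟨adjB_symm⟩
  loopless := ⟨fun u h => by simp [adjB_irr u] at h⟩

instance : DecidableRel G0.Adj := fun u v => inferInstanceAs (Decidable (adjB u v = true))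

/-- check a forcing sequence; `z` = entry (2,2) is zero -/
def chk (z : Bool) : List (Fin 14 × Fin 14) → List (Fin 14) → Bool
  | [], S => decide (∀ v, v ∈ S)
  | (u, w) :: st, S =>
    (adjB u w || (u == 2 && w == 2 && !z)) &&
      decide (∀ y, y ≠ w → (adjB u y = true ∨ (y = u ∧ ¬ (u = 2 ∧ z = true))) → y ∈ S) &&
      chk z st (w :: S)

lemma chk_sound (A : Matrix (Fin 14) (Fin 14) ℝ) (hA : Fits G0 A) (z : Bool)
    (hz : z = true ↔ A 2 2 = 0) (x : Fin 14 → ℝ) (hx : A.mulVec x = 0) :
    ∀ (st : List (Fin 14 × Fin 14)) (S : List (Fin 14)), chk z st S = true →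
      (∀ v ∈ S, x v = 0) → ∀ v, x v = 0 := by
  intro st
  induction st with
  | nil =>
    intro S h hS v
    simp only [chk, decide_eq_true_eq] at h
    exact hS v (h v)
  | cons p st ih =>
    obtain ⟨u, w⟩ := p
    intro S h hS
    simp only [chk, Bool.and_eq_true, decide_eq_true_eq] at h
    obtain ⟨⟨h1, h2⟩, h3⟩ := h
    have hw : A u w ≠ 0 := by
      rcases Bool.or_eq_true_iff.1 h1 with h1 | h1
      · have hne : u ≠ w := by
          rintro rfl
          simp [adjB_irr] at h1
        exact (hA.2 u w hne).2 h1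
      · simp only [Bool.and_eq_true, beq_iff_eq, Bool.not_eq_true'] at h1
        obtain ⟨⟨rfl, rfl⟩, h⟩ := h1
        intro h0
        rw [hz.2 h0] at h
        exact absurd h (by simp)
    have hrow : ∑ y, A u y * x y = 0 := congrFun hx u
    rw [Finset.sum_eq_single w] at hrow
    · apply ih (w :: S) h3
      intro v hv
      rcases List.mem_cons.1 hv with rfl | hv
      · exact (mul_eq_zero.1 hrow).resolve_left hw
      · exact hS v hv
    · intro y _ hy
      by_cases h0 : A u y = 0
      · rw [h0, zero_mul]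
      · have : y ∈ S := by
          apply h2 y hy
          by_cases hyu : y = u
          · right
            refine ⟨hyu, ?_⟩
            rintro ⟨rfl, hz'⟩
            subst hyu
            exact h0 (hz.1 hz')
          · left
            exact (hA.2 u y (Ne.symm hyu)).1 h0
        rw [hS y this, mul_zero]
    · intro h
      exact absurd (Finset.mem_univ w) h

lemma null_le (A : Matrix (Fin 14) (Fin 14) ℝ) (s : Fin 4 → Fin 14)
    (h : ∀ x : Fin 14 → ℝ, A.mulVec x = 0 → (∀ i, x (s i) = 0) → ∀ v, x v = 0) :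
    Module.finrank ℝ (LinearMap.ker A.mulVecLin) ≤ 4 := by
  let f : LinearMap.ker A.mulVecLin →ₗ[ℝ] (Fin 4 → ℝ) :=
    (LinearMap.funLeft ℝ ℝ s).comp (LinearMap.ker A.mulVecLin).subtype
  have hf : Function.Injective f := by
    rw [← LinearMap.ker_eq_bot, LinearMap.ker_eq_bot']
    intro x hx
    ext v
    exact h x.1 x.2 (fun i => congrFun hx i) v
  simpa using LinearMap.finrank_le_finrank_of_injective hf

lemma M_le : maxNull G0 ≤ 4 := by
  apply csSup_le'
  rintro k ⟨A, hA, rfl⟩
  by_cases h : A 2 2 = 0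
  · apply null_le A ![0, 3, 7, 8]
    intro x hx hs
    refine chk_sound A hA true (by simp [h]) x hx
      [(8, 1), (1, 12), (2, 11), (0, 9), (3, 13), (13, 5), (5, 10), (7, 2), (10, 4), (11, 6)]
      [0, 3, 7, 8] (by decide +kernel) ?_
    intro v hv
    simp only [List.mem_cons, List.not_mem_nil, or_false] at hv
    rcases hv with rfl | rfl | rfl | rfl
    exacts [hs 0, hs 1, hs 2, hs 3]
  · apply null_le A ![0, 6, 8, 9]
    intro x hx hs
    refine chk_sound A hA false (by simp [h]) x hx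
      [(0, 11), (6, 12), (8, 1), (1, 7), (2, 2), (7, 5), (11, 4), (12, 3), (3, 13), (4, 10)]
      [0, 6, 8, 9] (by decide +kernel) ?_
    intro v hv
    simp only [List.mem_cons, List.not_mem_nil, or_false] at hv
    rcases hv with rfl | rfl | rfl | rfl
    exacts [hs 0, hs 1, hs 2, hs 3]

def forts : List (List (Fin 14)) :=
  [[2, 3, 4, 5], [8, 9, 11, 12], [0, 1, 2, 6], [3, 4, 6, 10, 13], [7, 8, 9, 10, 12],
    [7, 9, 10, 11, 12], [7, 8, 9, 11, 13], [0, 1, 3, 4, 5], [8, 10, 11, 12, 13],
    [4, 5, 6, 7, 12, 13], [0, 1, 2, 3, 7, 13], [2, 3, 6, 7, 12, 13], [0, 1, 2, 4, 7, 10],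
    [0, 1, 6, 7, 12, 13], [2, 3, 5, 9, 10, 11], [0, 2, 3, 7, 8, 13], [3, 5, 6, 7, 8, 10, 11],
    [2, 5, 6, 9, 10, 11, 13], [0, 1, 5, 6, 9, 10, 13], [1, 4, 6, 7, 8, 10, 11],
    [0, 2, 4, 6, 7, 8, 10], [0, 1, 2, 9, 10, 11, 13], [1, 2, 6, 8, 9, 10, 13],
    [0, 1, 4, 5, 11, 12, 13], [0, 1, 3, 5, 10, 11, 12], [0, 1, 2, 3, 4, 10, 13],
    [2, 4, 5, 8, 9, 12, 13], [0, 2, 5, 8, 9, 10, 12, 13]]

lemma forts_ok : ∀ F ∈ forts, F ≠ [] ∧
    ∀ u w, u ∉ F → w ∈ F → adjB u w = true → ∃ x, adjB u x = true ∧ x ≠ w ∧ x ∈ F := by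
  decide +kernel

lemma fort_meets (B : Finset (Fin 14)) (hB : ∀ v, Filled G0 B v) :
    ∀ F ∈ forts, ∃ a ∈ F, a ∈ B := by
  intro F hF
  obtain ⟨hne, hfort⟩ := forts_ok F hF
  by_contra hc
  have key : ∀ v, Filled G0 B v → v ∉ F := by
    intro v hv
    induction hv with
    | base v hv => exact fun h => hc ⟨v, h, hv⟩
    | force u w _ huw _ i1 i2 =>
      intro hw
      obtain ⟨x, h1, h2, h3⟩ := hfort u w i1 hw huw
      exact i2 x h1 h2 h3
  obtain ⟨a, ha⟩ := List.exists_mem_of_ne_nil F hne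
  exact key a (hB a) ha

def hit : ℕ → List (Fin 14) → Bool
  | 0, _ => true
  | n + 1, c => forts.any fun F => c.all (fun a => !F.contains a) && F.all fun a => hit n (a :: c)

lemma hit_sound (B : Finset (Fin 14)) (hB : ∀ F ∈ forts, ∃ a ∈ F, a ∈ B) :
    ∀ (n : ℕ) (c : List (Fin 14)), hit n c = true → c.Nodup → (∀ a ∈ c, a ∈ B) →
      n + c.length ≤ B.card := by
  intro n
  induction n with
  | zero =>
    intro c _ hc hcB
    rw [zero_add, ← List.toFinset_card_of_nodup hc]
    apply Finset.card_le_card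
    intro a ha
    exact hcB a (List.mem_toFinset.1 ha)
  | succ n ih =>
    intro c h hc hcB
    simp only [hit, List.any_eq_true, Bool.and_eq_true, List.all_eq_true] at h
    obtain ⟨F, hF, h1, h2⟩ := h
    obtain ⟨a, haF, haB⟩ := hB F hF
    have hac : a ∉ c := fun h => by
      have := h1 a h
      simp [haF] at this
    have := ih (a :: c) (h2 a haF) (List.nodup_cons.2 ⟨hac, hc⟩) (by
      intro b hb
      rcases List.mem_cons.1 hb with rfl | hb
      · exact haB
      · exact hcB b hb)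
    simp only [List.length_cons] at this
    omega

lemma hit5 : hit 5 [] = true := by decide +kernel

lemma Z_ge : 5 ≤ zfNum G0 := by
  apply le_csInf
  · exact ⟨_, Finset.univ, rfl, fun v => Filled.base v (Finset.mem_univ v)⟩
  · rintro k ⟨B, rfl, hB⟩
    simpa using hit_sound B (fort_meets B hB) 5 [] hit5 List.nodup_nil (by simp)

lemma G0_conn : G0.Connected := by
  have h : ∀ v, G0.Reachable 0 v := by
    have a : ∀ {u v : Fin 14}, G0.Reachable 0 u → adjB u v = true → G0.Reachable 0 v :=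
      fun hu h => hu.trans (SimpleGraph.Adj.reachable h)
    have h0 : G0.Reachable 0 0 := SimpleGraph.Reachable.refl _
    have h8 := a (v := 8) h0 (by decide)
    have h9 := a (v := 9) h0 (by decide)
    have h11 := a (v := 11) h0 (by decide)
    have h1 := a (v := 1) h8 (by decide)
    have h3 := a (v := 3) h9 (by decide)
    have h4 := a (v := 4) h9 (by decide)
    have h6 := a (v := 6) h9 (by decide)
    have h2 := a (v := 2) h11 (by decide)
    have h7 := a (v := 7) h1 (by decide)
    have h12 := a (v := 12) h1 (by decide)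
    have h13 := a (v := 13) h3 (by decide)
    have h10 := a (v := 10) h4 (by decide)
    have h5 := a (v := 5) h7 (by decide)
    intro v
    fin_cases v
    exacts [h0, h1, h2, h3, h4, h5, h6, h7, h8, h9, h10, h11, h12, h13]
  exact ⟨fun u v => (h u).symm.trans (h v)⟩

end Example

theorem result : ¬ ∀ (n : ℕ) (G : SimpleGraph (Fin n)) (X Y : Finset (Fin n)),
    G.Connected → Disjoint X Y → X ∪ Y = Finset.univ →
    (∀ u v, G.Adj u v → (u ∈ X ∧ v ∈ Y) ∨ (u ∈ Y ∧ v ∈ X)) →
    Y.card ≤ X.card → (∀ x ∈ X, (G.neighborSet x).ncard = 3) → maxNull G = zfNum G := by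
  intro h
  have := h 14 G0 {0, 1, 2, 3, 4, 5, 6} {7, 8, 9, 10, 11, 12, 13} G0_conn (by decide)
    (by decide) (by decide +kernel) (by decide) (by
      intro x hx
      rw [Set.ncard_eq_toFinset_card']
      revert x
      decide +kernel)
  have h1 := M_le
  have h2 := Z_ge
  omega

end Pool.Agent.Results.MP_cfc379_co.No
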